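import Mathlib
import Pool.Agent.Q83.Frac.Complete

/-! The Bargmann transform with real-analytic details. -/

set_option autoImplicit false

open MeasureTheory Filter Topology
open scoped Real ComplexConjugate

namespace Pool.Agent.Q83.Her

/-- the kernel `e^{-π t² + 2 π t ζ - π ζ²/2}` -/
noncomputable def E (ζ : ℂ) (t : ℝ) : ℂ :=
  Complex.exp (-(π : ℂ) * t ^ 2 + 2 * π * t * ζ - π * ζ ^ 2 / 2)

/-- the transform -/
noncomputable def U (g : ℝ → ℂ) (ζ : ℂ) : ℂ := ∫ t : ℝ, g t * E ζ t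

theorem norm_E (ζ : ℂ) (t : ℝ) :
    ‖E ζ t‖ = Real.exp (-π * t ^ 2 + 2 * π * t * ζ.re - π * (ζ ^ 2).re / 2) := by
  unfold E
  rw [Complex.norm_exp]
  congr 1
  have e1 : (-(π : ℂ) * t ^ 2 + 2 * π * t * ζ - π * ζ ^ 2 / 2)
      = ((-π * t ^ 2 : ℝ) : ℂ) + ((2 * π * t : ℝ) : ℂ) * ζ - ((π / 2 : ℝ) : ℂ) * ζ ^ 2 := by
    push_cast; ring
  rw [e1, Complex.sub_re, Complex.add_re, Complex.ofReal_re, Complex.re_ofReal_mul,
    Complex.re_ofReal_mul]
  ring

theorem norm_E_le {ζ : ℂ} {r : ℝ} (hζ : ‖ζ‖ ≤ r) (t : ℝ) :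
    ‖E ζ t‖ ≤ Real.exp (4 * π * r ^ 2) * Real.exp (-(π / 2) * t ^ 2) := by
  rw [norm_E, ← Real.exp_add]
  apply Real.exp_le_exp.2
  have hr : 0 ≤ r := (norm_nonneg _).trans hζ
  have h1 : |ζ.re| ≤ r := (Complex.abs_re_le_norm ζ).trans hζ
  have h2 : |(ζ ^ 2).re| ≤ r ^ 2 := by
    refine (Complex.abs_re_le_norm _).trans ?_
    rw [norm_pow]
    exact pow_le_pow_left₀ (norm_nonneg _) hζ 2
  have hpi := Real.pi_pos
  have h3 : 2 * π * t * ζ.re ≤ π / 2 * t ^ 2 + 2 * π * r ^ 2 := by
    have h4 : t * ζ.re ≤ |t| * r := by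
      calc t * ζ.re ≤ |t * ζ.re| := le_abs_self _
        _ = |t| * |ζ.re| := abs_mul _ _
        _ ≤ |t| * r := mul_le_mul_of_nonneg_left h1 (abs_nonneg _)
    have h5 : 0 ≤ (|t| - 2 * r) ^ 2 := sq_nonneg _
    have h6 : |t| ^ 2 = t ^ 2 := sq_abs t
    have h7 : |t| * r ≤ t ^ 2 / 4 + r ^ 2 := by nlinarith
    nlinarith
  have h4 : -(π * (ζ ^ 2).re / 2) ≤ π * r ^ 2 / 2 := by
    have := neg_abs_le (ζ ^ 2).re
    nlinarith
  nlinarith [sq_nonneg r]

theorem cont_E (ζ : ℂ) : Continuous (E ζ) := by unfold E; fun_prop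

theorem gauss_L2 {b : ℝ} (hb : 0 < b) (p : Polynomial ℝ) :
    MemLp (fun t : ℝ => ((p.eval t * Real.exp (-b * t ^ 2) : ℝ) : ℂ)) 2 := by
  have hint : ∀ q : Polynomial ℝ, Integrable (fun t : ℝ => q.eval t * Real.exp (-(2 * b) * t ^ 2)) := by
    intro q
    induction q using Polynomial.induction_on' with
    | add p q hp hq =>
      refine (hp.add hq).congr (Eventually.of_forall fun t => ?_)
      simp only [Pi.add_apply, Polynomial.eval_add]
      ring
    | monomial n a =>
      have h := (integrable_rpow_mul_exp_neg_mul_sq (b := 2 * b) (by positivity)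
        (s := n) (by have : (0 : ℝ) ≤ n := Nat.cast_nonneg n; linarith)).const_mul a
      refine h.congr (Eventually.of_forall fun t => ?_)
      simp only [Polynomial.eval_monomial, Real.rpow_natCast]
      ring
  rw [memLp_two_iff_integrable_sq_norm]
  · refine (hint (p ^ 2)).congr (Eventually.of_forall fun t => ?_)
    simp only [Polynomial.eval_pow]
    rw [Complex.norm_real, Real.norm_eq_abs, sq_abs, mul_pow, ← Real.exp_nat_mul]
    congr 2
    push_cast
    ring
  · exact (Complex.continuous_ofReal.comp (by fun_prop)).aestronglyMeasurable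

theorem E_L2 (ζ : ℂ) : MemLp (E ζ) 2 := by
  have h := (gauss_L2 (b := π / 2) (by positivity) 1).const_mul
    ((Real.exp (4 * π * ‖ζ‖ ^ 2) : ℝ) : ℂ)
  refine h.mono (cont_E ζ).aestronglyMeasurable (Eventually.of_forall fun t => ?_)
  refine (norm_E_le le_rfl t).trans ?_
  rw [norm_mul, Complex.norm_real, Complex.norm_real, Polynomial.eval_one, one_mul,
    Real.norm_eq_abs, Real.norm_eq_abs, abs_of_pos (Real.exp_pos _), abs_of_pos (Real.exp_pos _)]

variable {g : ℝ → ℂ} (hg : MemLp g 2)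

include hg in
theorem int_gE (ζ : ℂ) : Integrable (fun t => g t * E ζ t) := hg.integrable_mul (E_L2 ζ)

theorem hasDeriv_E (ζ : ℂ) (t : ℝ) :
    HasDerivAt (fun ζ => E ζ t) ((2 * π * t - π * ζ) * E ζ t) ζ := by
  unfold E
  have h1 : HasDerivAt (fun ζ : ℂ => -(π : ℂ) * t ^ 2 + 2 * π * t * ζ - π * ζ ^ 2 / 2)
      (2 * π * t - π * ζ) ζ := by
    have h2 := ((hasDerivAt_id ζ).const_mul (2 * (π : ℂ) * t)).const_add (-(π : ℂ) * t ^ 2)
    have h3 := ((hasDerivAt_pow 2 ζ).const_mul (π : ℂ)).div_const 2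
    refine (h2.sub h3).congr_deriv ?_
    push_cast
    ring
  refine h1.cexp.congr_deriv ?_
  ring

include hg in
theorem U_hasDeriv (ζ : ℂ) :
    HasDerivAt (U g) (∫ t : ℝ, g t * ((2 * π * t - π * ζ) * E ζ t)) ζ := by
  set r : ℝ := ‖ζ‖ + 1 with hr
  let p : Polynomial ℝ := Polynomial.C (2 * π) * Polynomial.X ^ 2 + Polynomial.C (2 * π + π * r)
  let B : ℝ → ℝ := fun t => Real.exp (4 * π * r ^ 2) * (p.eval t * Real.exp (-(π / 2) * t ^ 2))
  have hp : ∀ t : ℝ, 2 * π * |t| + π * r ≤ p.eval t := by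
    intro t
    simp only [p, Polynomial.eval_add, Polynomial.eval_mul, Polynomial.eval_C, Polynomial.eval_pow,
      Polynomial.eval_X]
    have h1 : |t| ≤ t ^ 2 + 1 := by
      have := sq_abs t
      nlinarith [sq_nonneg (|t| - 1), abs_nonneg t]
    have := Real.pi_pos
    nlinarith
  have hB2 : MemLp (fun t => ((B t : ℝ) : ℂ)) 2 := by
    have := (gauss_L2 (b := π / 2) (by positivity) p).const_mul
      ((Real.exp (4 * π * r ^ 2) : ℝ) : ℂ)
    refine this.ae_eq (Eventually.of_forall fun t => ?_)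
    simp only [B]
    push_cast
    ring
  have hB0 : ∀ t, 0 ≤ B t := by
    intro t
    have h1 := hp t
    have : 0 ≤ p.eval t := by
      refine le_trans ?_ h1
      positivity
    positivity
  have hbound : ∀ ζ' ∈ Metric.ball ζ 1, ∀ t : ℝ, ‖(2 * π * t - π * ζ') * E ζ' t‖ ≤ B t := by
    intro ζ' hζ' t
    have hn : ‖ζ'‖ ≤ r := by
      have h1 : ‖ζ' - ζ‖ < 1 := by simpa [dist_eq_norm] using hζ'
      have h2 := norm_add_le (ζ' - ζ) ζ
      rw [sub_add_cancel] at h2
      linarith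
    rw [norm_mul]
    have h1 : ‖(2 * π * t - π * ζ' : ℂ)‖ ≤ p.eval t := by
      refine le_trans ?_ (hp t)
      refine (norm_sub_le _ _).trans ?_
      have e1 : ‖(2 * π * t : ℂ)‖ = 2 * π * |t| := by
        rw [norm_mul, norm_mul, Complex.norm_real, Complex.norm_real, Complex.norm_ofNat,
          Real.norm_eq_abs, Real.norm_eq_abs, abs_of_pos Real.pi_pos]
      have e2 : ‖(π * ζ' : ℂ)‖ ≤ π * r := by
        rw [norm_mul, Complex.norm_real, Real.norm_eq_abs, abs_of_pos Real.pi_pos]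
        exact mul_le_mul_of_nonneg_left hn Real.pi_pos.le
      linarith
    have h2 := norm_E_le hn t
    calc _ ≤ p.eval t * (Real.exp (4 * π * r ^ 2) * Real.exp (-(π / 2) * t ^ 2)) :=
          mul_le_mul h1 h2 (norm_nonneg _) ((norm_nonneg _).trans h1)
      _ = B t := by simp only [B]; ring
  have hgB : Integrable (fun t => ‖g t‖ * B t) := by
    have := (hg.integrable_mul hB2).norm
    refine this.congr (Eventually.of_forall fun t => ?_)
    simp only [Pi.mul_apply]
    rw [norm_mul, Complex.norm_real, Real.norm_eq_abs, abs_of_nonneg (hB0 t)]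
  have key := hasDerivAt_integral_of_dominated_loc_of_deriv_le (μ := volume) (𝕜 := ℂ)
    (F := fun ζ' t => g t * E ζ' t) (F' := fun ζ' t => g t * ((2 * π * t - π * ζ') * E ζ' t))
    (x₀ := ζ) (s := Metric.ball ζ 1) (bound := fun t => ‖g t‖ * B t) (Metric.ball_mem_nhds ζ one_pos)
    (Eventually.of_forall fun ζ' => (int_gE hg ζ').aestronglyMeasurable) (int_gE hg ζ)
    (hg.aestronglyMeasurable.mul (by
      refine Continuous.aestronglyMeasurable ?_
      have := cont_E ζ
      fun_prop))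
    (Eventually.of_forall fun t ζ' hζ' => by
      rw [norm_mul]
      exact mul_le_mul_of_nonneg_left (hbound ζ' hζ' t) (norm_nonneg _))
    hgB
    (Eventually.of_forall fun t ζ' _ => (hasDeriv_E ζ' t).const_mul (g t))
  exact key.2

include hg in
theorem U_diff : Differentiable ℂ (U g) := fun ζ => (U_hasDeriv hg ζ).differentiableAt

/-- injectivity -/
theorem U_inj {v : ℝ → ℂ} (hv : MemLp v 2) (h : ∀ ζ, U v ζ = 0) : v =ᵐ[volume] 0 := by
  let ν : Measure ℝ := volume.withDensity (fun t => ENNReal.ofReal (Real.exp (-π * t ^ 2)))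
  have hgi : Integrable (fun t : ℝ => Real.exp (-π * t ^ 2)) := integrable_exp_neg_mul_sq Real.pi_pos
  have hfin : IsFiniteMeasure ν := isFiniteMeasure_withDensity_ofReal hgi.2
  have hmeas : Measurable (fun t : ℝ => Real.exp (-π * t ^ 2)) := by fun_prop
  have hE0 : ∀ t : ℝ, E 0 t = ((Real.exp (-π * t ^ 2) : ℝ) : ℂ) := by
    intro t
    unfold E
    push_cast
    congr 1
    ring
  have hconv : ∀ f : ℝ → ℂ, ∫ t, f t ∂ν = ∫ t, ((Real.exp (-π * t ^ 2) : ℝ) : ℂ) * f t := by
    intro f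
    rw [integral_withDensity_eq_integral_toReal_smul (by fun_prop)
      (Eventually.of_forall fun _ => ENNReal.ofReal_lt_top)]
    refine integral_congr_ae (Eventually.of_forall fun t => ?_)
    simp only
    rw [ENNReal.toReal_ofReal (Real.exp_pos _).le, Complex.real_smul]
  have hvi : Integrable v ν := by
    rw [integrable_withDensity_iff_integrable_smul' (by fun_prop)
      (Eventually.of_forall fun _ => ENNReal.ofReal_lt_top)]
    refine (int_gE hv 0).congr (Eventually.of_forall fun t => ?_)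
    simp only
    rw [ENNReal.toReal_ofReal (Real.exp_pos _).le, Complex.real_smul, hE0, mul_comm]
  have h1 : v =ᵐ[ν] 0 := by
    refine Q83.Frac.complex_zero ν v hvi fun s => ?_
    rw [hconv]
    have h2 := h (Complex.I * (s / (2 * π)))
    unfold U at h2
    have h3 : ∀ t : ℝ, ((Real.exp (-π * t ^ 2) : ℝ) : ℂ) * (v t * Complex.exp (s * t * Complex.I))
        = (v t * E (Complex.I * (s / (2 * π))) t)
          * Complex.exp (π * (Complex.I * (s / (2 * π))) ^ 2 / 2) := by
      intro t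
      unfold E
      have hpi : (π : ℂ) ≠ 0 := by exact_mod_cast Real.pi_ne_zero
      rw [mul_assoc (v t), ← Complex.exp_add, Complex.ofReal_exp, ← mul_assoc,
        mul_comm (Complex.exp _) (v t), mul_assoc, ← Complex.exp_add]
      congr 2
      push_cast
      field_simp
      ring
    simp_rw [h3]
    rw [integral_mul_const, h2, zero_mul]
  have h2 := (ae_withDensity_iff (μ := volume)
    (f := fun t : ℝ => ENNReal.ofReal (Real.exp (-π * t ^ 2))) (by fun_prop)).1 h1
  filter_upwards [h2] with t ht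
  exact ht (by simp [Real.exp_pos])

end Pool.Agent.Q83.Her
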