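import Mathlib

/-! Second order expansions. -/

set_option autoImplicit false

open MeasureTheory Filter Topology Asymptotics
open scoped Real ComplexConjugate

namespace Pool.Agent.Q83.Her

/-- second order expansion at `0` -/
structure Ex (f : ℂ → ℂ) (f0 : ℂ) (f1 f2 : ℂ → ℂ) : Prop where
  h1 : f1 =O[𝓝 0] (fun w => ‖w‖)
  h2 : f2 =O[𝓝 0] (fun w => ‖w‖ ^ 2)
  h : (fun w => f w - (f0 + f1 w + f2 w)) =o[𝓝 0] (fun w => ‖w‖ ^ 2)

theorem norm_O_one : (fun w : ℂ => ‖w‖) =O[𝓝 0] (fun _ => (1 : ℝ)) := by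
  have : Continuous (fun w : ℂ => ‖w‖) := continuous_norm
  exact (this.tendsto 0).isBigO_one ℝ

theorem sq_o_norm : (fun w : ℂ => ‖w‖ ^ 2) =o[𝓝 0] (fun w => ‖w‖) := by
  have h1 : (fun w : ℂ => ‖w‖) =o[𝓝 0] (fun _ => (1 : ℝ)) := by
    rw [isLittleO_one_iff]
    have : Continuous (fun w : ℂ => ‖w‖) := continuous_norm
    simpa using this.tendsto 0
  have := h1.mul_isBigO (isBigO_refl (fun w : ℂ => ‖w‖) (𝓝 0))
  simpa [sq] using this

theorem cube_o : (fun w : ℂ => ‖w‖ ^ 3) =o[𝓝 0] (fun w => ‖w‖ ^ 2) := by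
  have := sq_o_norm.mul_isBigO (isBigO_refl (fun w : ℂ => ‖w‖) (𝓝 0))
  refine this.congr (fun w => by ring) (fun w => by ring)

theorem Ex.isBigO_one {f : ℂ → ℂ} {f0 : ℂ} {f1 f2 : ℂ → ℂ} (h : Ex f f0 f1 f2) :
    f =O[𝓝 0] (fun _ => (1 : ℝ)) := by
  have e1 : f1 =O[𝓝 0] (fun _ => (1 : ℝ)) := h.h1.trans norm_O_one
  have e2 : (fun w : ℂ => ‖w‖ ^ 2) =O[𝓝 0] (fun _ => (1 : ℝ)) :=
    sq_o_norm.isBigO.trans norm_O_one
  have e3 : f2 =O[𝓝 0] (fun _ => (1 : ℝ)) := h.h2.trans e2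
  have e4 := h.h.isBigO.trans e2
  have e0 : (fun _ : ℂ => f0) =O[𝓝 0] (fun _ => (1 : ℝ)) := isBigO_const_const _ one_ne_zero _
  have := e4.add ((e0.add e1).add e3)
  refine this.congr_left fun w => ?_
  ring

theorem Ex.mul {f g : ℂ → ℂ} {f0 g0 : ℂ} {f1 f2 g1 g2 : ℂ → ℂ} (hf : Ex f f0 f1 f2)
    (hg : Ex g g0 g1 g2) : Ex (fun w => f w * g w) (f0 * g0) (fun w => f0 * g1 w + f1 w * g0)
      (fun w => f0 * g2 w + f1 w * g1 w + f2 w * g0) := by
  have O12 : (fun w : ℂ => ‖w‖ * ‖w‖) =O[𝓝 0] (fun w => ‖w‖ ^ 2) :=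
    (isBigO_refl _ _).congr_right fun w => by ring
  refine ⟨?_, ?_, ?_⟩
  · exact (hg.h1.const_mul_left _).add ((hf.h1.const_mul_left g0).congr_left fun w => mul_comm _ _)
  · refine ((hg.h2.const_mul_left _).add ((hf.h1.mul hg.h1).trans O12)).add
      ((hf.h2.const_mul_left g0).congr_left fun w => mul_comm _ _)
  · have a1 : (fun w => (f w - (f0 + f1 w + f2 w)) * g w) =o[𝓝 0] (fun w => ‖w‖ ^ 2) := by
      have := hf.h.mul_isBigO hg.isBigO_one
      simpa using this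
    have ha : (fun w => f0 + f1 w + f2 w) =O[𝓝 0] (fun _ => (1 : ℝ)) := by
      have e2 : (fun w : ℂ => ‖w‖ ^ 2) =O[𝓝 0] (fun _ => (1 : ℝ)) :=
        sq_o_norm.isBigO.trans norm_O_one
      exact ((isBigO_const_const _ one_ne_zero _).add (hf.h1.trans norm_O_one)).add (hf.h2.trans e2)
    have a2 : (fun w => (f0 + f1 w + f2 w) * (g w - (g0 + g1 w + g2 w))) =o[𝓝 0]
        (fun w => ‖w‖ ^ 2) := by
      have := ha.mul_isLittleO hg.h
      simpa using this
    have a3 : (fun w => f1 w * g2 w) =o[𝓝 0] (fun w => ‖w‖ ^ 2) := by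
      refine (hf.h1.mul hg.h2).trans_isLittleO (cube_o.congr_left fun w => by ring)
    have a4 : (fun w => f2 w * g1 w) =o[𝓝 0] (fun w => ‖w‖ ^ 2) := by
      refine (hf.h2.mul hg.h1).trans_isLittleO (cube_o.congr_left fun w => by ring)
    have a5 : (fun w => f2 w * g2 w) =o[𝓝 0] (fun w => ‖w‖ ^ 2) := by
      have h4 : (fun w : ℂ => ‖w‖ ^ 2 * ‖w‖ ^ 2) =o[𝓝 0] (fun w => ‖w‖ ^ 2) := by
        have := cube_o.mul_isBigO norm_O_one
        refine this.congr (fun w => by ring) (fun w => by ring)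
      exact (hf.h2.mul hg.h2).trans_isLittleO h4
    have := ((((a1.add a2).add a3).add a4).add a5)
    refine this.congr_left fun w => ?_
    ring

/-- Taylor's formula of order two -/
theorem taylor2 {u : ℂ → ℂ} (hu : Differentiable ℂ u) (ζ : ℂ) :
    (fun h : ℂ => u (ζ + h) - (u ζ + deriv u ζ * h + deriv (deriv u) ζ * h ^ 2 / 2)) =o[𝓝 0]
      (fun h => ‖h‖ ^ 2) := by
  have hu' : Differentiable ℂ (deriv u) := hu.deriv
  let φ : ℂ → ℂ := fun h => u (ζ + h) - (u ζ + deriv u ζ * h + deriv (deriv u) ζ * h ^ 2 / 2)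
  have hφ : ∀ h, HasDerivAt φ (deriv u (ζ + h) - deriv u ζ - deriv (deriv u) ζ * h) h := by
    intro h
    have h1 : HasDerivAt (fun h => u (ζ + h)) (deriv u (ζ + h)) h := by
      have := (hu (ζ + h)).hasDerivAt.comp_const_add ζ h
      exact this
    have h2 := ((hasDerivAt_id h).const_mul (deriv u ζ)).const_add (u ζ)
    have h3 := ((hasDerivAt_pow 2 h).const_mul (deriv (deriv u) ζ)).div_const 2
    refine (h1.sub (h2.add h3)).congr_deriv ?_
    push_cast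
    ring
  have hψ : (fun h => deriv u (ζ + h) - deriv u ζ - deriv (deriv u) ζ * h) =o[𝓝 0]
      (fun h => h) := by
    have := (hu' ζ).hasDerivAt
    rw [hasDerivAt_iff_isLittleO_nhds_zero] at this
    refine this.congr_left fun h => ?_
    rw [smul_eq_mul]; ring
  rw [isLittleO_iff]
  intro ε hε
  have h1 := (isLittleO_iff.1 hψ) hε
  rw [Metric.eventually_nhds_iff_ball] at h1 ⊢
  obtain ⟨δ, hδ, h1⟩ := h1
  refine ⟨δ, hδ, fun h hh => ?_⟩
  have h2 : ∀ x ∈ Metric.closedBall (0 : ℂ) ‖h‖,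
      ‖deriv u (ζ + x) - deriv u ζ - deriv (deriv u) ζ * x‖ ≤ ε * ‖h‖ := by
    intro x hx
    have hx' : ‖x‖ ≤ ‖h‖ := by simpa using hx
    have hh' : ‖h‖ < δ := by simpa using hh
    refine (h1 x (by simpa using lt_of_le_of_lt hx' hh')).trans ?_
    exact mul_le_mul_of_nonneg_left hx' hε.le
  have h3 := (convex_closedBall (0 : ℂ) ‖h‖).norm_image_sub_le_of_norm_hasDerivWithin_le
    (f := φ) (fun x _ => (hφ x).hasDerivWithinAt) h2 (x := 0) (y := h) (by simp) (by simp)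
  have h4 : φ 0 = 0 := by simp [φ]
  rw [h4, sub_zero, sub_zero] at h3
  rw [norm_pow, norm_norm]
  calc _ ≤ ε * ‖h‖ * ‖h‖ := h3
    _ = _ := by ring

theorem taylor2_comp {u : ℂ → ℂ} (hu : Differentiable ℂ u) (ζ : ℂ) {η : ℂ → ℂ}
    (hη : η =O[𝓝 0] (fun w => ‖w‖)) :
    (fun w : ℂ => u (ζ + η w) - (u ζ + deriv u ζ * η w + deriv (deriv u) ζ * η w ^ 2 / 2)) =o[𝓝 0]
      (fun w => ‖w‖ ^ 2) := by
  have h0 : Tendsto η (𝓝 0) (𝓝 0) := by
    refine hη.trans_tendsto ?_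
    have : Continuous (fun w : ℂ => ‖w‖) := continuous_norm
    simpa using this.tendsto 0
  have h1 := (taylor2 hu ζ).comp_tendsto h0
  refine h1.trans_isBigO ?_
  have := hη.norm_left.pow 2
  exact this

theorem conj_O : (fun w : ℂ => conj w) =O[𝓝 0] (fun w => ‖w‖) :=
  IsBigO.of_bound 1 (Eventually.of_forall fun w => by simp)

theorem id_O : (fun w : ℂ => w) =O[𝓝 0] (fun w => ‖w‖) :=
  IsBigO.of_bound 1 (Eventually.of_forall fun w => by simp)

theorem Ex_U {u : ℂ → ℂ} (hu : Differentiable ℂ u) (ζ : ℂ) :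
    Ex (fun w => u (ζ - conj w)) (u ζ) (fun w => -(deriv u ζ) * conj w)
      (fun w => deriv (deriv u) ζ / 2 * conj w ^ 2) := by
  refine ⟨conj_O.const_mul_left _, ?_, ?_⟩
  · exact (conj_O.pow 2).const_mul_left _
  · have := taylor2_comp hu ζ (η := fun w => -conj w) conj_O.neg_left
    refine this.congr_left fun w => ?_
    rw [sub_eq_add_neg ζ]
    ring

theorem Ex_e (ζ : ℂ) :
    Ex (fun w => Complex.exp (-(π * (w * conj w) / 2) + π * ζ * w)) 1 (fun w => π * ζ * w)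
      (fun w => -(π / 2) * (w * conj w) + π ^ 2 * ζ ^ 2 / 2 * w ^ 2) := by
  have O12 : (fun w : ℂ => ‖w‖ * ‖w‖) =O[𝓝 0] (fun w => ‖w‖ ^ 2) :=
    (isBigO_refl _ _).congr_right fun w => by ring
  have hww : (fun w : ℂ => w * conj w) =O[𝓝 0] (fun w => ‖w‖ ^ 2) := (id_O.mul conj_O).trans O12
  refine ⟨id_O.const_mul_left _, ?_, ?_⟩
  · exact (hww.const_mul_left _).add ((id_O.pow 2).const_mul_left _)
  · have hη : (fun w : ℂ => -(π * (w * conj w) / 2) + π * ζ * w) =O[𝓝 0] (fun w => ‖w‖) := by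
      refine IsBigO.add ?_ (id_O.const_mul_left _)
      refine ((hww.const_mul_left (-(π : ℂ) / 2)).trans sq_o_norm.isBigO).congr_left fun w => ?_
      ring
    have h1 := taylor2_comp Complex.differentiable_exp 0 hη
    have h2 : (fun w : ℂ => ((π / 2 * (w * conj w)) ^ 2 - π ^ 2 * ζ * (w * (w * conj w))) / 2)
        =o[𝓝 0] (fun w => ‖w‖ ^ 2) := by
      have a1 : (fun w : ℂ => w * (w * conj w)) =o[𝓝 0] (fun w => ‖w‖ ^ 2) := by
        refine (id_O.mul hww).trans_isLittleO (cube_o.congr_left fun w => by ring)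
      have a2 : (fun w : ℂ => (w * conj w) * (w * conj w)) =o[𝓝 0] (fun w => ‖w‖ ^ 2) := by
        have h4 : (fun w : ℂ => ‖w‖ ^ 2 * ‖w‖ ^ 2) =o[𝓝 0] (fun w => ‖w‖ ^ 2) := by
          have := cube_o.mul_isBigO norm_O_one
          refine this.congr (fun w => by ring) (fun w => by ring)
        exact (hww.mul hww).trans_isLittleO h4
      have := (a2.const_mul_left ((π / 2) ^ 2 / 2 : ℂ)).sub (a1.const_mul_left (π ^ 2 * ζ / 2 : ℂ))
      refine this.congr_left fun w => ?_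
      ring
    have := h1.add h2
    refine this.congr_left fun w => ?_
    simp only [Complex.deriv_exp, Complex.exp_zero, zero_add]
    ring

end Pool.Agent.Q83.Her
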