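import Pool.Agent.Q83.Her.Exp

/-! The limit of small discs. -/

set_option autoImplicit false

open MeasureTheory Filter Topology Asymptotics Metric
open scoped Real ComplexConjugate

namespace Pool.Agent.Q83.Her

theorem intOn {f : ℂ → ℂ} (hf : Continuous f) (R : ℝ) : IntegrableOn f (ball 0 R) :=
  (hf.continuousOn.integrableOn_compact (isCompact_closedBall (0 : ℂ) R)).mono_set
    ball_subset_closedBall

theorem intOnR {f : ℂ → ℝ} (hf : Continuous f) (R : ℝ) : IntegrableOn f (ball 0 R) :=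
  (hf.continuousOn.integrableOn_compact (isCompact_closedBall (0 : ℂ) R)).mono_set
    ball_subset_closedBall

/-- `∫_{|w|<R} |w|²` -/
noncomputable def SS (R : ℝ) : ℝ := ∫ w in ball (0 : ℂ) R, ‖w‖ ^ 2

theorem SS_pos {R : ℝ} (hR : 0 < R) : 0 < SS R := by
  unfold SS
  rw [setIntegral_pos_iff_support_of_nonneg_ae (Eventually.of_forall fun w => by positivity)
    (intOnR (by fun_prop) R)]
  have h1 : ball (0 : ℂ) R \ {0} ⊆ Function.support (fun w : ℂ => ‖w‖ ^ 2) ∩ ball 0 R := by
    rintro w ⟨hw, hw0⟩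
    refine ⟨?_, hw⟩
    simp only [Function.mem_support, ne_eq]
    have : w ≠ 0 := hw0
    positivity
  refine lt_of_lt_of_le ?_ (measure_mono h1)
  rw [measure_sdiff_null (by simp : volume ({0} : Set ℂ) = 0)]
  exact measure_ball_pos _ _ hR

theorem avg_o {Dd : ℂ → ℂ} (hc : Continuous Dd) (h : Dd =o[𝓝 0] (fun w => ‖w‖ ^ 2)) :
    Tendsto (fun R : ℝ => (∫ w in ball (0 : ℂ) R, Dd w) / SS R) (𝓝[>] 0) (𝓝 0) := by
  rw [Metric.tendsto_nhdsWithin_nhds]
  intro ε hε
  have h1 := (isLittleO_iff.1 h) (half_pos hε)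
  rw [Metric.eventually_nhds_iff_ball] at h1
  obtain ⟨δ, hδ, h1⟩ := h1
  refine ⟨δ, hδ, fun R hR hRd => ?_⟩
  have hR0 : 0 < R := hR
  have hRδ : R < δ := by
    rw [dist_zero_right, Real.norm_eq_abs, abs_of_pos hR0] at hRd
    exact hRd
  have hS := SS_pos hR0
  rw [dist_zero_right, norm_div, Complex.norm_real, Real.norm_eq_abs, abs_of_pos hS,
    div_lt_iff₀ hS]
  have h2 : ‖∫ w in ball (0 : ℂ) R, Dd w‖ ≤ ∫ w in ball (0 : ℂ) R, ε / 2 * ‖w‖ ^ 2 := by
    refine (norm_integral_le_integral_norm _).trans ?_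
    refine setIntegral_mono_on (intOn hc R).norm ((intOnR (by fun_prop) R).const_mul _)
      measurableSet_ball fun w hw => ?_
    have h3 : w ∈ ball (0 : ℂ) δ := ball_subset_ball hRδ.le hw
    have := h1 w h3
    rwa [norm_pow, norm_norm] at this
  rw [integral_const_mul] at h2
  have h3 : (∫ w in ball (0 : ℂ) R, ‖w‖ ^ 2) = SS R := rfl
  rw [h3] at h2
  nlinarith

/-- invariance of integrals over discs -/
theorem int_iso (e : ℂ ≃ₗᵢ[ℝ] ℂ) (f : ℂ → ℂ) (R : ℝ) :
    ∫ w in ball (0 : ℂ) R, f (e w) = ∫ w in ball (0 : ℂ) R, f w := by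
  have h := (e.measurePreserving).setIntegral_preimage_emb
    e.toHomeomorph.measurableEmbedding f (ball 0 R)
  have h1 : e ⁻¹' ball (0 : ℂ) R = ball 0 R := by
    ext w
    simp
  rw [h1] at h
  exact h

theorem int_sq (R : ℝ) : ∫ w in ball (0 : ℂ) R, w ^ 2 = 0 := by
  have h := int_iso (rotation (Circle.exp (π / 2))) (fun w => w ^ 2) R
  have h1 : ∀ w : ℂ, (rotation (Circle.exp (π / 2)) w) ^ 2 = -w ^ 2 := by
    intro w
    rw [rotation_apply, Circle.coe_exp]
    have : Complex.exp (((π / 2 : ℝ) : ℂ) * Complex.I) = Complex.I := by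
      push_cast
      exact Complex.exp_pi_div_two_mul_I
    rw [this, mul_pow, Complex.I_sq]
    ring
  simp_rw [h1] at h
  rw [integral_neg] at h
  have h2 : (2 : ℂ) * ∫ w in ball (0 : ℂ) R, w ^ 2 = 0 := by linear_combination -h
  simpa using h2

theorem int_conj_sq (R : ℝ) : ∫ w in ball (0 : ℂ) R, conj w ^ 2 = 0 := by
  have h := integral_conj (μ := volume.restrict (ball (0 : ℂ) R)) (f := fun w : ℂ => w ^ 2)
  rw [int_sq, map_zero] at h
  simpa only [map_pow] using h

theorem int_normsq (R : ℝ) : ∫ w in ball (0 : ℂ) R, w * conj w = (SS R : ℂ) := by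
  unfold SS
  rw [← integral_complex_ofReal]
  congr 1
  funext w
  rw [Complex.mul_conj, Complex.normSq_eq_norm_sq]

theorem int_neg {F : ℂ → ℂ} (hneg : ∀ w, F (-w) = conj (F w)) (R : ℝ) :
    ∫ w in ball (0 : ℂ) R, F w * conj w = -conj (∫ w in ball (0 : ℂ) R, F w * w) := by
  have h := int_iso (LinearIsometryEquiv.neg ℝ) (fun w => F w * conj w) R
  rw [← h, ← integral_conj, ← integral_neg]
  congr 1
  funext w
  simp only [LinearIsometryEquiv.coe_neg]
  rw [hneg, map_neg, map_mul]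
  ring

/-- the linear map of the finite dimensional range -/
noncomputable def LM (u : ℂ → ℂ) : ℂ × ℂ →ₗ[ℝ] (ℂ → ℂ) where
  toFun q := fun ζ => q.1 * u ζ - π * ζ * q.2 * u ζ - conj q.2 * deriv u ζ
  map_add' a b := by
    funext ζ
    simp only [Prod.fst_add, Prod.snd_add, map_add, Pi.add_apply]
    ring
  map_smul' r a := by
    funext ζ
    simp only [Prod.smul_fst, Prod.smul_snd, Pi.smul_apply, Complex.real_smul, map_mul,
      Complex.conj_ofReal, RingHom.id_apply]
    ring

theorem ode_of_rep {F u : ℂ → ℂ} (hF : Continuous F) (hneg : ∀ w, F (-w) = conj (F w))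
    (hu : Differentiable ℂ u)
    (h : ∀ R : ℝ, 0 < R → ∃ c : ℂ, ∀ ζ : ℂ, c * u ζ = ∫ w in ball (0 : ℂ) R,
      F w * (Complex.exp (-(π * (w * conj w) / 2) + π * ζ * w) * u (ζ - conj w))) :
    ∃ A K : ℂ, ∀ ζ, A * u ζ - π * ζ * K * u ζ - conj K * deriv u ζ
      = -π * F 0 * (u ζ / 2 + ζ * deriv u ζ) := by
  choose! c hc using h
  let q : ℝ → ℂ × ℂ := fun R => ((c R - ∫ w in ball (0 : ℂ) R, F w) / SS R,
    (∫ w in ball (0 : ℂ) R, F w * w) / SS R)
  let T : ℂ → ℂ := fun ζ => -π * F 0 * (u ζ / 2 + ζ * deriv u ζ)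
  have hlim : Tendsto (fun R : ℝ => LM u (q R)) (𝓝[>] 0) (𝓝 T) := by
    rw [tendsto_pi_nhds]
    intro ζ
    have hex := (Ex_e ζ).mul (Ex_U hu ζ)
    set f0 : ℂ := 1 * u ζ with hf0
    set f1 : ℂ → ℂ := fun w => 1 * (-(deriv u ζ) * conj w) + π * ζ * w * u ζ with hf1
    set f2 : ℂ → ℂ := fun w => 1 * (deriv (deriv u) ζ / 2 * conj w ^ 2)
      + π * ζ * w * (-(deriv u ζ) * conj w)
      + (-(π / 2) * (w * conj w) + π ^ 2 * ζ ^ 2 / 2 * w ^ 2) * u ζ with hf2
    set Φ : ℂ → ℂ := fun w => Complex.exp (-(π * (w * conj w) / 2) + π * ζ * w) * u (ζ - conj w)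
      with hΦ
    have hcu := hu.continuous
    have hcconj : Continuous (fun w : ℂ => conj w) := Complex.continuous_conj
    have hΦc : Continuous Φ := by
      rw [hΦ]
      exact (Complex.continuous_exp.comp (by fun_prop)).mul (hcu.comp (by fun_prop))
    have hf1c : Continuous f1 := by rw [hf1]; fun_prop
    have hf2c : Continuous f2 := by rw [hf2]; fun_prop
    let Dd : ℂ → ℂ := fun w => F w * (Φ w - f0 - f1 w) - F 0 * f2 w
    have hDc : Continuous Dd := by fun_prop
    have hDo : Dd =o[𝓝 0] (fun w => ‖w‖ ^ 2) := by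
      have a1 : (fun w => (F w - F 0) * f2 w) =o[𝓝 0] (fun w => ‖w‖ ^ 2) := by
        have b1 : (fun w => F w - F 0) =o[𝓝 0] (fun _ => (1 : ℝ)) := by
          rw [isLittleO_one_iff]
          have h9 : Continuous (fun w => F w - F 0) := hF.sub continuous_const
          have := h9.tendsto 0
          simpa only [sub_self] using this
        have := b1.mul_isBigO hex.h2
        simpa using this
      have a2 : (fun w => F w * (Φ w - (f0 + f1 w + f2 w))) =o[𝓝 0] (fun w => ‖w‖ ^ 2) := by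
        have b1 : F =O[𝓝 0] (fun _ => (1 : ℝ)) := (hF.tendsto 0).isBigO_one ℝ
        have := b1.mul_isLittleO hex.h
        simpa using this
      refine (a1.add a2).congr_left fun w => ?_
      simp only [Dd]
      ring
    have havg := avg_o hDc hDo
    have hTeq : T ζ = F 0 * (-(π * ζ * deriv u ζ) - π / 2 * u ζ) := by
      simp only [T]; ring
    have hlast : Tendsto (fun R : ℝ => (∫ w in ball (0 : ℂ) R, Dd w) / SS R + T ζ) (𝓝[>] 0)
        (𝓝 (T ζ)) := by
      have := havg.add_const (T ζ)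
      rwa [zero_add] at this
    refine hlast.congr' ?_
    filter_upwards [self_mem_nhdsWithin] with R hR
    have hR0 : 0 < R := hR
    have hS : (SS R : ℂ) ≠ 0 := by exact_mod_cast (SS_pos hR0).ne'
    have hcR := hc R hR0 ζ
    have i1 : IntegrableOn (fun w => F w * Φ w) (ball 0 R) := intOn (by fun_prop) R
    have i2 : IntegrableOn (fun w => F w * f0) (ball 0 R) := intOn (by fun_prop) R
    have i3 : IntegrableOn (fun w => F w * f1 w) (ball 0 R) := intOn (by fun_prop) R
    have i4 : IntegrableOn (fun w => F 0 * f2 w) (ball 0 R) := intOn (by fun_prop) R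
    have e1 : ∫ w in ball (0 : ℂ) R, Dd w = (∫ w in ball (0 : ℂ) R, F w * Φ w)
        - (∫ w in ball (0 : ℂ) R, F w * f0) - (∫ w in ball (0 : ℂ) R, F w * f1 w)
        - ∫ w in ball (0 : ℂ) R, F 0 * f2 w := by
      have i12 : IntegrableOn (fun w => F w * Φ w - F w * f0) (ball 0 R) := intOn (by fun_prop) R
      have i123 : IntegrableOn (fun w => F w * Φ w - F w * f0 - F w * f1 w) (ball 0 R) :=
        intOn (by fun_prop) R
      have e0 : ∫ w in ball (0 : ℂ) R, Dd w
          = ∫ w in ball (0 : ℂ) R, (F w * Φ w - F w * f0 - F w * f1 w - F 0 * f2 w) := by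
        congr 1
        funext w
        simp only [Dd]
        ring
      rw [e0, integral_sub i123 i4, integral_sub i12 i3, integral_sub i1 i2]
    have e2 : ∫ w in ball (0 : ℂ) R, F w * f0 = (∫ w in ball (0 : ℂ) R, F w) * u ζ := by
      rw [integral_mul_const, hf0, one_mul]
    have e3 : ∫ w in ball (0 : ℂ) R, F w * f1 w
        = -(deriv u ζ) * (∫ w in ball (0 : ℂ) R, F w * conj w)
          + π * ζ * u ζ * ∫ w in ball (0 : ℂ) R, F w * w := by
      rw [← integral_const_mul, ← integral_const_mul, ← integral_add]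
      · congr 1
        funext w
        simp only [hf1]
        ring
      · exact (intOn (by fun_prop) R).const_mul _
      · exact (intOn (by fun_prop) R).const_mul _
    have e4 : ∫ w in ball (0 : ℂ) R, F 0 * f2 w = T ζ * SS R := by
      have g1 : IntegrableOn (fun w : ℂ => deriv (deriv u) ζ / 2 * conj w ^ 2) (ball 0 R) :=
        intOn (by fun_prop) R
      have g2 : IntegrableOn (fun w : ℂ => (-(π * ζ * deriv u ζ) - π / 2 * u ζ) * (w * conj w))
        (ball 0 R) := intOn (by fun_prop) R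
      have g3 : IntegrableOn (fun w : ℂ => π ^ 2 * ζ ^ 2 / 2 * u ζ * w ^ 2) (ball 0 R) :=
        intOn (by fun_prop) R
      have e5 : ∫ w in ball (0 : ℂ) R, f2 w
          = (∫ w in ball (0 : ℂ) R, deriv (deriv u) ζ / 2 * conj w ^ 2)
          + (∫ w in ball (0 : ℂ) R, (-(π * ζ * deriv u ζ) - π / 2 * u ζ) * (w * conj w))
          + ∫ w in ball (0 : ℂ) R, π ^ 2 * ζ ^ 2 / 2 * u ζ * w ^ 2 := by
        have g12 : IntegrableOn (fun w : ℂ => deriv (deriv u) ζ / 2 * conj w ^ 2
          + (-(π * ζ * deriv u ζ) - π / 2 * u ζ) * (w * conj w)) (ball 0 R) :=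
          intOn (by fun_prop) R
        have e0 : ∫ w in ball (0 : ℂ) R, f2 w = ∫ w in ball (0 : ℂ) R,
            (deriv (deriv u) ζ / 2 * conj w ^ 2
            + (-(π * ζ * deriv u ζ) - π / 2 * u ζ) * (w * conj w)
            + π ^ 2 * ζ ^ 2 / 2 * u ζ * w ^ 2) := by
          congr 1
          funext w
          simp only [hf2]
          ring
        rw [e0, integral_add g12 g3, integral_add g1 g2]
      rw [integral_const_mul, e5, integral_const_mul, integral_const_mul, integral_const_mul,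
        int_conj_sq, int_normsq, int_sq, hTeq]
      ring
    have e6 := int_neg hneg R
    rw [e1, e2, e3, e4, e6, ← hcR]
    change _ = (c R - ∫ w in ball (0 : ℂ) R, F w) / SS R * u ζ
      - π * ζ * ((∫ w in ball (0 : ℂ) R, F w * w) / SS R) * u ζ
      - conj ((∫ w in ball (0 : ℂ) R, F w * w) / SS R) * deriv u ζ
    rw [map_div₀, Complex.conj_ofReal]
    field_simp
    ring
  have hclosed : IsClosed ((LinearMap.range (LM u) : Submodule ℝ (ℂ → ℂ)) : Set (ℂ → ℂ)) :=
    Submodule.closed_of_finiteDimensional _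
  have hmem : T ∈ ((LinearMap.range (LM u) : Submodule ℝ (ℂ → ℂ)) : Set (ℂ → ℂ)) :=
    hclosed.mem_of_tendsto hlim (Eventually.of_forall fun R => ⟨q R, rfl⟩)
  obtain ⟨⟨A, K⟩, hAK⟩ := hmem
  exact ⟨A, K, fun ζ => congrFun hAK ζ⟩

end Pool.Agent.Q83.Her
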