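import Mathlib

/-! Solving the differential equation. -/

set_option autoImplicit false

open Filter Topology
open scoped Real ComplexConjugate

namespace Pool.Agent.Q83.Her

theorem monomial_sol {v : ℂ → ℂ} (hv : Differentiable ℂ v) (hne : ∃ z, v z ≠ 0) {b : ℂ}
    (h : ∀ z, z * deriv v z = b * v z) : ∃ n : ℕ, ∃ C : ℂ, C ≠ 0 ∧ ∀ z, v z = C * z ^ n := by
  have hd : ∀ m : ℕ, Differentiable ℂ (iteratedDeriv m v) := by
    intro m
    induction m with
    | zero => rw [iteratedDeriv_zero]; exact hv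
    | succ m ih => rw [iteratedDeriv_succ]; exact ih.deriv
  have key : ∀ m : ℕ, ∀ z, z * iteratedDeriv (m + 1) v z = (b - m) * iteratedDeriv m v z := by
    intro m
    induction m with
    | zero => intro z; rw [iteratedDeriv_one, iteratedDeriv_zero, h]; simp
    | succ m ih =>
      intro z
      have h1 : (fun z => z * iteratedDeriv (m + 1) v z) = fun z => (b - m) * iteratedDeriv m v z :=
        funext ih
      have h2 := congrArg (fun f => deriv f z) h1
      beta_reduce at h2
      rw [deriv_fun_mul differentiableAt_fun_id (hd (m + 1) z), deriv_const_mul _ (hd m z)] at h2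
      rw [← iteratedDeriv_succ, ← iteratedDeriv_succ, deriv_id''] at h2
      push_cast
      linear_combination h2
  have h0 : ∀ m : ℕ, (b - m) * iteratedDeriv m v 0 = 0 := by
    intro m
    rw [← key m 0, zero_mul]
  have hser : ∀ z, HasSum (fun n : ℕ => (n.factorial : ℂ)⁻¹ • (z - 0) ^ n • iteratedDeriv n v 0) (v z) :=
    fun z => Complex.hasSum_taylorSeries_of_entire hv 0 z
  have hex : ∃ n, iteratedDeriv n v 0 ≠ 0 := by
    by_contra hcon
    push Not at hcon
    obtain ⟨z, hz⟩ := hne
    apply hz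
    have := hser z
    simp only [hcon, smul_zero] at this
    exact this.unique hasSum_zero
  obtain ⟨n, hn⟩ := hex
  have hb : b = n := by
    have := h0 n
    rcases mul_eq_zero.1 this with h1 | h1
    · linear_combination h1
    · exact absurd h1 hn
  have hz0 : ∀ m, m ≠ n → iteratedDeriv m v 0 = 0 := by
    intro m hm
    rcases mul_eq_zero.1 (h0 m) with h1 | h1
    · exfalso
      apply hm
      rw [hb] at h1
      have : (n : ℂ) = m := by linear_combination h1
      exact_mod_cast this.symm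
    · exact h1
  refine ⟨n, (n.factorial : ℂ)⁻¹ * iteratedDeriv n v 0, ?_, fun z => ?_⟩
  · exact mul_ne_zero (inv_ne_zero (by exact_mod_cast n.factorial_ne_zero)) hn
  · have h1 := hser z
    have h2 : HasSum (fun m : ℕ => (m.factorial : ℂ)⁻¹ • (z - 0) ^ m • iteratedDeriv m v 0)
        ((n.factorial : ℂ)⁻¹ • (z - 0) ^ n • iteratedDeriv n v 0) :=
      hasSum_single n fun m hm => by rw [hz0 m hm]; simp
    rw [h1.unique h2]
    simp only [sub_zero, smul_eq_mul]
    ring

theorem ode_sol {u : ℂ → ℂ} (hu : Differentiable ℂ u) (hne : ∃ ζ, u ζ ≠ 0) {A K : ℂ} {F0 : ℝ}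
    (hF0 : F0 ≠ 0) (h : ∀ ζ, A * u ζ - π * ζ * K * u ζ - conj K * deriv u ζ
      = -π * F0 * (u ζ / 2 + ζ * deriv u ζ)) :
    ∃ κ : ℂ, ∃ n : ℕ, ∃ C : ℂ, C ≠ 0 ∧
      ∀ ζ, u ζ = C * Complex.exp (π * ζ * κ) * (ζ - conj κ) ^ n := by
  have hF : (F0 : ℂ) ≠ 0 := by exact_mod_cast hF0
  have hpi : (π : ℂ) ≠ 0 := by exact_mod_cast Real.pi_ne_zero
  set κ : ℂ := K / (π * F0) with hκ
  have hκc : conj κ = conj K / (π * F0) := by
    rw [hκ, map_div₀, map_mul, Complex.conj_ofReal, Complex.conj_ofReal]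
  set a : ℂ := -(A / (π * F0)) - 1 / 2 with ha
  have h1 : ∀ ζ, (ζ - conj κ) * deriv u ζ = (π * κ * ζ + a) * u ζ := by
    intro ζ
    have := h ζ
    rw [hκc, hκ, ha]
    field_simp
    linear_combination 2 * this
  let v : ℂ → ℂ := fun z => Complex.exp (-(π * (z + conj κ) * κ)) * u (z + conj κ)
  have hvd : ∀ z, HasDerivAt v (Complex.exp (-(π * (z + conj κ) * κ)) *
      (deriv u (z + conj κ) - π * κ * u (z + conj κ))) z := by
    intro z
    have g1 : HasDerivAt (fun z : ℂ => -(π * (z + conj κ) * κ)) (-(π * κ)) z := by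
      have := ((((hasDerivAt_id z).add_const (conj κ)).const_mul (π : ℂ)).mul_const κ).neg
      refine this.congr_deriv ?_
      ring
    have g2 : HasDerivAt (fun z => u (z + conj κ)) (deriv u (z + conj κ)) z :=
      (hu (z + conj κ)).hasDerivAt.comp_add_const z (conj κ)
    refine (g1.cexp.mul g2).congr_deriv ?_
    ring
  have hv : Differentiable ℂ v := fun z => (hvd z).differentiableAt
  have hode : ∀ z, z * deriv v z = (a + π * κ * conj κ) * v z := by
    intro z
    rw [(hvd z).deriv]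
    have := h1 (z + conj κ)
    rw [add_sub_cancel_right] at this
    simp only [v]
    linear_combination Complex.exp (-(π * (z + conj κ) * κ)) * this
  have hvne : ∃ z, v z ≠ 0 := by
    obtain ⟨ζ, hζ⟩ := hne
    refine ⟨ζ - conj κ, ?_⟩
    simp only [v, sub_add_cancel]
    exact mul_ne_zero (Complex.exp_ne_zero _) hζ
  obtain ⟨n, C, hC, hn⟩ := monomial_sol hv hvne hode
  refine ⟨κ, n, C, hC, fun ζ => ?_⟩
  have h2 := hn (ζ - conj κ)
  simp only [v, sub_add_cancel] at h2
  have h3 : u ζ = Complex.exp (π * ζ * κ) * (Complex.exp (-(π * ζ * κ)) * u ζ) := by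
    rw [← mul_assoc, ← Complex.exp_add, add_neg_cancel, Complex.exp_zero, one_mul]
  rw [h3, h2]
  ring

end Pool.Agent.Q83.Her
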