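import Pool.Agent.Q83.Her.Hm
import Pool.Agent.Q83.Her.Ode
import Pool.Agent.Q83.Her.Lim

/-! Windows with local reproducing formulas on all discs are Hermite functions. -/

set_option autoImplicit false

open MeasureTheory Filter Topology Metric
open scoped Real ComplexConjugate

namespace Pool.Agent.Q83.Her

/-- the time-frequency shift `π(z) g (t) = e^{2πi ξ t} g(t - x)`, `z = x + i ξ` -/
noncomputable def tf (z : ℂ) (g : ℝ → ℂ) (t : ℝ) : ℂ :=
  Complex.exp (2 * π * Complex.I * (z.im * t)) * g (t - z.re)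

/-- the short-time Fourier transform `V_g f (z) = ⟨f, π(z) g⟩` -/
noncomputable def stft (g f : ℝ → ℂ) (z : ℂ) : ℂ := ip f (tf z g)

/-- `g` admits a local reproducing formula on all discs -/
def LocalRep (g : ℝ → ℂ) : Prop :=
  ∀ R : ℝ, 0 < R → ∃ C : ℂ, C ≠ 0 ∧ ∀ f : ℝ → ℂ, MemLp f 2 → ∀ z : ℂ,
    C * stft g f z = ∫ w in ball z R, ip (tf w g) (tf z g) * stft g f w

/-- the phase -/
noncomputable def ph (w : ℂ) : ℂ := Complex.exp (((π * w.re * w.im : ℝ) : ℂ) * Complex.I)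

theorem ph_mul (w : ℂ) : ph w * conj (ph w) = 1 := by
  rw [Complex.mul_conj, Complex.normSq_eq_norm_sq]
  unfold ph
  rw [Complex.norm_exp_ofReal_mul_I]
  simp

theorem ph_ne (w : ℂ) : ph w ≠ 0 := Complex.exp_ne_zero _

theorem tf_eq (w : ℂ) (g : ℝ → ℂ) (t : ℝ) : tf w g t = ph w * rho w g t := by
  unfold tf ph rho mf
  have h : Complex.exp (2 * π * Complex.I * (w.im * t))
      = Complex.exp (((π * w.re * w.im : ℝ) : ℂ) * Complex.I)
        * Complex.exp (((2 * π * w.im * t - π * w.re * w.im : ℝ) : ℂ) * Complex.I) := by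
    rw [← Complex.exp_add]
    congr 1
    push_cast
    ring
  rw [h]
  ring

theorem tf_zero (g : ℝ → ℂ) : tf 0 g = g := by
  funext t
  unfold tf
  simp

theorem U_conj (g : ℝ → ℂ) (ζ : ℂ) : ip (fun t => conj (E ζ t)) g = conj (U g ζ) := by
  unfold ip U
  rw [← integral_conj]
  congr 1
  funext t
  rw [map_mul]
  ring

theorem rep_eq {g : ℝ → ℂ} (h : LocalRep g) {R : ℝ} (hR : 0 < R) :
    ∃ c : ℂ, ∀ ζ : ℂ, c * U g ζ = ∫ w in ball (0 : ℂ) R,
      FF g w * (Complex.exp (-(π * (w * conj w) / 2) + π * ζ * w) * U g (ζ - conj w)) := by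
  obtain ⟨C, -, hC⟩ := h R hR
  refine ⟨conj C, fun ζ => ?_⟩
  have hE : MemLp (fun t => conj (E ζ t)) 2 := (E_L2 ζ).star
  have h1 := hC _ hE 0
  rw [tf_zero] at h1
  unfold stft at h1
  rw [tf_zero, U_conj] at h1
  have h2 := congrArg conj h1
  rw [map_mul, Complex.conj_conj, ← integral_conj] at h2
  rw [h2]
  congr 1
  funext w
  have e1 : tf w g = fun t => ph w * rho w g t := funext (tf_eq w g)
  have e2 : ip (fun t => conj (E ζ t)) (tf w g) = conj (ph w) * conj (U (rho w g) ζ) := by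
    rw [U_conj, e1]
    unfold U
    rw [← map_mul, ← integral_const_mul]
    congr 2
    funext t
    ring
  have e3 : ip (tf w g) g = ph w * conj (FF g w) := by
    rw [e1]
    unfold FF ip
    rw [← integral_conj, ← integral_const_mul]
    congr 1
    funext t
    rw [map_mul, Complex.conj_conj]
    ring
  rw [e2, e3, map_mul, map_mul, map_mul, Complex.conj_conj, Complex.conj_conj, Complex.conj_conj,
    ← U_rho]
  linear_combination (FF g w * U (rho w g) ζ) * ph_mul w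

theorem FF_zero_ne {g : ℝ → ℂ} (hg : MemLp g 2) (hne : ¬ g =ᵐ[volume] 0) :
    (∫ t : ℝ, ‖g t‖ ^ 2) ≠ 0 := by
  intro h
  apply hne
  have hint := (memLp_two_iff_integrable_sq_norm hg.aestronglyMeasurable).1 hg
  have h1 := (integral_eq_zero_iff_of_nonneg (fun t => sq_nonneg ‖g t‖) hint).1 h
  filter_upwards [h1] with t ht
  simpa using ht

theorem hermite_of_localRep {g : ℝ → ℂ} (hg : MemLp g 2) (hne : ¬ g =ᵐ[volume] 0)
    (h : LocalRep g) : ∃ n : ℕ, ∃ c : ℂ, ∃ a : ℂ, c ≠ 0 ∧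
      g =ᵐ[volume] fun t => c * tf a (herm n) t := by
  obtain ⟨A, K, hAK⟩ := ode_of_rep (cont_FF hg) (FF_neg g) (U_diff hg)
    (fun R hR => rep_eq h hR)
  rw [FF_zero] at hAK
  have hune : ∃ ζ, U g ζ ≠ 0 := by
    by_contra hcon
    push Not at hcon
    exact hne (U_inj hg hcon)
  obtain ⟨κ, n, C, hC, hn⟩ := ode_sol (U_diff hg) hune (FF_zero_ne hg hne) hAK
  have hpi : (π : ℂ) ≠ 0 := by exact_mod_cast Real.pi_ne_zero
  set J : ℂ := (1 / 2 : ℂ) ^ (1 / 2 : ℂ) with hJ
  have hJ0 : J ≠ 0 := half_ne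
  set d : ℂ := Complex.exp (-(π * (κ * conj κ) / 2)) * (-(2 * π)) ^ n * J with hd
  have hd0 : d ≠ 0 := by
    refine mul_ne_zero (mul_ne_zero (Complex.exp_ne_zero _) (pow_ne_zero _ ?_)) hJ0
    simp [hpi]
  let Hc : ℝ → ℂ := fun t => (Hn n t : ℂ)
  have hHc : MemLp Hc 2 := Hn_L2 n
  have hUH : ∀ ζ, U (rho κ Hc) ζ = d * (Complex.exp (π * ζ * κ) * (ζ - conj κ) ^ n) := by
    intro ζ
    rw [U_rho, U_Hn, hd, Complex.exp_add]
    have : (-(2 * π * (ζ - conj κ)) : ℂ) = (-(2 * π)) * (ζ - conj κ) := by ring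
    rw [this, mul_pow]
    ring
  have hL : MemLp (fun t => (C / d) * rho κ Hc t) 2 := (rho_L2 hHc κ).const_mul _
  have hzero : g - (fun t => (C / d) * rho κ Hc t) =ᵐ[volume] 0 := by
    refine U_inj (hg.sub hL) fun ζ => ?_
    have e : U (g - fun t => (C / d) * rho κ Hc t) ζ = U g ζ - (C / d) * U (rho κ Hc) ζ := by
      unfold U
      have i1 := int_gE hg ζ
      have i2 : Integrable (fun t => (C / d) * (rho κ Hc t * E ζ t)) :=
        (int_gE (rho_L2 hHc κ) ζ).const_mul _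
      rw [← integral_const_mul, ← integral_sub i1 i2]
      congr 1
      funext t
      simp only [Pi.sub_apply]
      ring
    rw [e, hn, hUH]
    field_simp
    ring
  set s : ℝ := Real.sqrt (∫ s : ℝ, Hn n s ^ 2) with hs
  have hs0 : (s : ℂ) ≠ 0 := by
    have : 0 < s := Real.sqrt_pos.2 (Hn_norm_pos n)
    exact_mod_cast this.ne'
  refine ⟨n, C / d * s * conj (ph κ), κ, ?_, ?_⟩
  · refine mul_ne_zero (mul_ne_zero (div_ne_zero hC hd0) hs0) ?_
    rw [ne_eq, map_eq_zero]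
    exact ph_ne κ
  · filter_upwards [hzero] with t ht
    have h1 : g t = (C / d) * rho κ Hc t := by
      simpa [sub_eq_zero] using ht
    rw [h1, tf_eq]
    have h2 : rho κ (herm n) t = (1 / s : ℂ) * rho κ Hc t := by
      unfold rho herm
      rw [← hs]
      push_cast
      simp only [Hc]
      ring
    rw [h2]
    have h3 : C / d * s * conj (ph κ) * (ph κ * (1 / s * rho κ Hc t))
        = C / d * rho κ Hc t * (ph κ * conj (ph κ)) * (s * (1 / s)) := by ring
    rw [h3, ph_mul, mul_one_div_cancel hs0]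
    ring

theorem herm_norm (n : ℕ) : ∫ t : ℝ, ‖herm n t‖ ^ 2 = 1 := by
  have h := Hn_norm_pos n
  have e : ∀ t : ℝ, ‖herm n t‖ ^ 2 = (∫ s : ℝ, Hn n s ^ 2)⁻¹ * Hn n t ^ 2 := by
    intro t
    unfold herm
    rw [Complex.norm_real, Real.norm_eq_abs, sq_abs, mul_pow, div_pow, Real.sq_sqrt h.le]
    ring
  simp_rw [e]
  rw [integral_const_mul, inv_mul_cancel₀ h.ne']

end Pool.Agent.Q83.Her
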