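import Pool.Agent.Q83.Her.Shift

/-! Hermite functions. -/

set_option autoImplicit false

open MeasureTheory Filter Topology
open scoped Real ComplexConjugate

namespace Pool.Agent.Q83.Her

/-- `e^{-2π s²}` -/
noncomputable def gm (s : ℝ) : ℝ := Real.exp (-(2 * π) * s ^ 2)

/-- the unnormalised Hermite function -/
noncomputable def Hn (n : ℕ) (t : ℝ) : ℝ := Real.exp (π * t ^ 2) * iteratedDeriv n gm t

/-- the normalised Hermite function -/
noncomputable def herm (n : ℕ) (t : ℝ) : ℂ :=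
  (((1 / Real.sqrt (∫ s : ℝ, Hn n s ^ 2)) * Hn n t : ℝ) : ℂ)

theorem gm_deriv (t : ℝ) : HasDerivAt gm (-(4 * π) * t * gm t) t := by
  unfold gm
  have h1 : HasDerivAt (fun s : ℝ => -(2 * π) * s ^ 2) (-(4 * π) * t) t := by
    refine ((hasDerivAt_pow 2 t).const_mul (-(2 * π))).congr_deriv ?_
    push_cast; ring
  refine h1.exp.congr_deriv ?_
  ring

theorem poly_form (n : ℕ) : ∃ p : Polynomial ℝ, ∀ t, iteratedDeriv n gm t = p.eval t * gm t ∧
    HasDerivAt (iteratedDeriv n gm) (iteratedDeriv (n + 1) gm t) t := by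
  have key : ∀ n : ℕ, ∃ p : Polynomial ℝ, ∀ t, iteratedDeriv n gm t = p.eval t * gm t := by
    intro n
    induction n with
    | zero => exact ⟨1, fun t => by simp⟩
    | succ n ih =>
      obtain ⟨p, hp⟩ := ih
      refine ⟨p.derivative - Polynomial.C (4 * π) * Polynomial.X * p, fun t => ?_⟩
      rw [iteratedDeriv_succ]
      have h1 : iteratedDeriv n gm = fun t => p.eval t * gm t := funext hp
      rw [h1]
      have h2 : HasDerivAt (fun t => p.eval t * gm t)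
          (p.derivative.eval t * gm t + p.eval t * (-(4 * π) * t * gm t)) t :=
        (p.hasDerivAt t).mul (gm_deriv t)
      rw [h2.deriv]
      simp only [Polynomial.eval_sub, Polynomial.eval_mul, Polynomial.eval_C, Polynomial.eval_X]
      ring
  obtain ⟨p, hp⟩ := key n
  refine ⟨p, fun t => ⟨hp t, ?_⟩⟩
  rw [iteratedDeriv_succ]
  have h1 : iteratedDeriv n gm = fun t => p.eval t * gm t := funext hp
  rw [h1]
  exact ((p.hasDerivAt t).mul (gm_deriv t)).differentiableAt.hasDerivAt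

theorem Hn_L2 (n : ℕ) : MemLp (fun t => (Hn n t : ℂ)) 2 := by
  obtain ⟨p, hp⟩ := poly_form n
  refine (gauss_L2 Real.pi_pos p).ae_eq (Eventually.of_forall fun t => ?_)
  simp only
  unfold Hn
  rw [(hp t).1]
  unfold gm
  have : Real.exp (π * t ^ 2) * (p.eval t * Real.exp (-(2 * π) * t ^ 2))
      = p.eval t * (Real.exp (π * t ^ 2) * Real.exp (-(2 * π) * t ^ 2)) := by ring
  rw [this, ← Real.exp_add]
  congr 3
  ring

theorem HnE (n : ℕ) (ζ : ℂ) (t : ℝ) : (Hn n t : ℂ) * E ζ t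
    = Complex.exp (2 * π * t * ζ - π * ζ ^ 2 / 2) * ((iteratedDeriv n gm t : ℝ) : ℂ) := by
  unfold Hn E
  rw [show (-(π : ℂ) * t ^ 2 + 2 * π * t * ζ - π * ζ ^ 2 / 2)
    = -(π * t ^ 2) + (2 * π * t * ζ - π * ζ ^ 2 / 2) by ring, Complex.exp_add]
  have h1 : Complex.exp (π * t ^ 2) * Complex.exp (-(π * t ^ 2)) = 1 := by
    rw [← Complex.exp_add, add_neg_cancel, Complex.exp_zero]
  push_cast
  linear_combination (((iteratedDeriv n gm t : ℝ) : ℂ)
    * Complex.exp (2 * π * t * ζ - π * ζ ^ 2 / 2)) * h1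

theorem U_Hn_succ (n : ℕ) (ζ : ℂ) :
    U (fun t => (Hn (n + 1) t : ℂ)) ζ = -(2 * π * ζ) * U (fun t => (Hn n t : ℂ)) ζ := by
  obtain ⟨p, hp⟩ := poly_form n
  unfold U
  simp_rw [HnE]
  have hu : ∀ t : ℝ, HasDerivAt (fun t : ℝ => Complex.exp (2 * π * t * ζ - π * ζ ^ 2 / 2))
      (2 * π * ζ * Complex.exp (2 * π * t * ζ - π * ζ ^ 2 / 2)) t := by
    intro t
    have h1 : HasDerivAt (fun t : ℝ => (2 * π * t * ζ - π * ζ ^ 2 / 2 : ℂ)) (2 * π * ζ) t := by
      have h2 : HasDerivAt (fun t : ℝ => (t : ℂ)) 1 t := Complex.ofRealCLM.hasDerivAt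
      have h3 := ((h2.const_mul (2 * (π : ℂ))).mul_const ζ).sub_const (π * ζ ^ 2 / 2)
      refine h3.congr_deriv ?_
      ring
    refine h1.cexp.congr_deriv ?_
    ring
  have hv : ∀ t : ℝ, HasDerivAt (fun t : ℝ => ((iteratedDeriv n gm t : ℝ) : ℂ))
      ((iteratedDeriv (n + 1) gm t : ℝ) : ℂ) t := fun t => (hp t).2.ofReal_comp
  have i1 : Integrable (fun t : ℝ => Complex.exp (2 * π * t * ζ - π * ζ ^ 2 / 2)
      * ((iteratedDeriv (n + 1) gm t : ℝ) : ℂ)) := by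
    refine (int_gE (Hn_L2 (n + 1)) ζ).congr (Eventually.of_forall fun t => HnE _ _ _)
  have i2 : Integrable (fun t : ℝ => Complex.exp (2 * π * t * ζ - π * ζ ^ 2 / 2)
      * ((iteratedDeriv n gm t : ℝ) : ℂ)) := by
    refine (int_gE (Hn_L2 n) ζ).congr (Eventually.of_forall fun t => HnE _ _ _)
  have i3 : Integrable (fun t : ℝ => 2 * π * ζ * Complex.exp (2 * π * t * ζ - π * ζ ^ 2 / 2)
      * ((iteratedDeriv n gm t : ℝ) : ℂ)) := by
    refine (i2.const_mul (2 * π * ζ)).congr (Eventually.of_forall fun t => ?_)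
    simp only
    ring
  have key := integral_mul_deriv_eq_deriv_mul_of_integrable (fun t _ => hu t) (fun t _ => hv t)
    i1 i3 i2
  rw [key, ← integral_neg, ← integral_const_mul]
  congr 1
  funext t
  ring

theorem U_Hn_zero (ζ : ℂ) : U (fun t => (Hn 0 t : ℂ)) ζ = (1 / 2 : ℂ) ^ (1 / 2 : ℂ) := by
  unfold U
  simp_rw [HnE, iteratedDeriv_zero]
  have h := integral_cexp_quadratic (b := -(2 * π)) (by simp [Real.pi_pos]) (2 * π * ζ)
    (-(π * ζ ^ 2 / 2))
  have hpi : (π : ℂ) ≠ 0 := by exact_mod_cast Real.pi_ne_zero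
  have e : ∀ t : ℝ, Complex.exp (2 * π * t * ζ - π * ζ ^ 2 / 2) * (gm t : ℂ)
      = Complex.exp (-(2 * π) * t ^ 2 + 2 * π * ζ * t + -(π * ζ ^ 2 / 2)) := by
    intro t
    unfold gm
    rw [Complex.ofReal_exp, ← Complex.exp_add]
    congr 1
    push_cast
    ring
  simp_rw [e]
  rw [h]
  have e1 : (π : ℂ) / -(-(2 * π)) = 1 / 2 := by field_simp
  have e2 : -(π * ζ ^ 2 / 2) - (2 * π * ζ) ^ 2 / (4 * -(2 * π)) = 0 := by field_simp; ring
  rw [e1, e2, Complex.exp_zero, mul_one]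

theorem U_Hn (n : ℕ) (ζ : ℂ) :
    U (fun t => (Hn n t : ℂ)) ζ = (-(2 * π * ζ)) ^ n * (1 / 2 : ℂ) ^ (1 / 2 : ℂ) := by
  induction n with
  | zero => rw [U_Hn_zero, pow_zero, one_mul]
  | succ n ih => rw [U_Hn_succ, ih, pow_succ]; ring

theorem half_ne : (1 / 2 : ℂ) ^ (1 / 2 : ℂ) ≠ 0 := by
  rw [Complex.cpow_ne_zero_iff]
  left
  norm_num

theorem Hn_norm_pos (n : ℕ) : 0 < ∫ s : ℝ, Hn n s ^ 2 := by
  have hint : Integrable (fun s : ℝ => Hn n s ^ 2) := by
    have := (memLp_two_iff_integrable_sq_norm (Hn_L2 n).aestronglyMeasurable).1 (Hn_L2 n)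
    refine this.congr (Eventually.of_forall fun s => ?_)
    simp only
    rw [Complex.norm_real, Real.norm_eq_abs, sq_abs]
  have h0 : 0 ≤ ∫ s : ℝ, Hn n s ^ 2 := integral_nonneg fun s => sq_nonneg _
  refine lt_of_le_of_ne h0 (fun h => ?_)
  have h1 := (integral_eq_zero_iff_of_nonneg (fun s => sq_nonneg (Hn n s)) hint).1 h.symm
  have h2 : U (fun t => (Hn n t : ℂ)) 1 = 0 := by
    unfold U
    refine integral_eq_zero_of_ae ?_
    filter_upwards [h1] with s hs
    have : Hn n s = 0 := by simpa using hs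
    rw [this]
    simp
  rw [U_Hn] at h2
  have hpi : (π : ℂ) ≠ 0 := by exact_mod_cast Real.pi_ne_zero
  rcases mul_eq_zero.1 h2 with h3 | h3
  · have h4 : (-(2 * π * 1) : ℂ) ≠ 0 := by simp
    exact (pow_ne_zero n h4) h3
  · exact half_ne h3

end Pool.Agent.Q83.Her
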