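import Pool.Agent.Q83.Her.Bar

/-! Time-frequency shifts. -/

set_option autoImplicit false

open MeasureTheory Filter Topology
open scoped Real ComplexConjugate

namespace Pool.Agent.Q83.Her

/-- the modulation factor -/
noncomputable def mf (w : ℂ) (t : ℝ) : ℂ :=
  Complex.exp (((2 * π * w.im * t - π * w.re * w.im : ℝ) : ℂ) * Complex.I)

/-- the symmetric time-frequency shift -/
noncomputable def rho (w : ℂ) (g : ℝ → ℂ) (t : ℝ) : ℂ := mf w t * g (t - w.re)

theorem norm_mf (w : ℂ) (t : ℝ) : ‖mf w t‖ = 1 := Complex.norm_exp_ofReal_mul_I _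

theorem cont_mf : Continuous (fun q : ℂ × ℝ => mf q.1 q.2) := by
  unfold mf
  have h1 : Continuous (fun q : ℂ × ℝ => (2 * π * q.1.im * q.2 - π * q.1.re * q.1.im : ℝ)) := by
    have := Complex.continuous_re
    have := Complex.continuous_im
    fun_prop
  exact Complex.continuous_exp.comp ((Complex.continuous_ofReal.comp h1).mul continuous_const)

theorem cont_mf' (w : ℂ) : Continuous (mf w) := cont_mf.comp (by fun_prop : Continuous fun t : ℝ => (w, t))

theorem mp_shift (x : ℝ) : MeasurePreserving (fun t : ℝ => t - x) volume volume :=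
  measurePreserving_sub_right volume x

variable {g : ℝ → ℂ} (hg : MemLp g 2)

include hg in
theorem shift_L2 (x : ℝ) : MemLp (fun t => g (t - x)) 2 :=
  hg.comp_measurePreserving (mp_shift x)

include hg in
theorem rho_L2 (w : ℂ) : MemLp (rho w g) 2 := by
  refine (shift_L2 hg w.re).mono ((cont_mf' w).aestronglyMeasurable.mul
    (shift_L2 hg w.re).aestronglyMeasurable) (Eventually.of_forall fun t => ?_)
  unfold rho
  rw [norm_mul, norm_mf, one_mul]

/-- the transform of a shift -/
theorem U_rho (g : ℝ → ℂ) (w ζ : ℂ) : U (rho w g) ζ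
    = Complex.exp (-(π * (w * conj w) / 2) + π * ζ * w) * U g (ζ - conj w) := by
  unfold U rho
  have h1 : ∫ t : ℝ, mf w t * g (t - w.re) * E ζ t
      = ∫ t : ℝ, mf w (t + w.re) * g t * E ζ (t + w.re) := by
    rw [← integral_sub_right_eq_self (fun t : ℝ => mf w (t + w.re) * g t * E ζ (t + w.re)) w.re]
    refine integral_congr_ae (Eventually.of_forall fun t => ?_)
    simp only [sub_add_cancel]
  rw [h1, ← integral_const_mul]
  refine integral_congr_ae (Eventually.of_forall fun t => ?_)
  simp only
  unfold mf E
  have e : ∀ a b c d : ℂ, Complex.exp a * g t * Complex.exp b = Complex.exp c * (g t * Complex.exp d)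
      ↔ Complex.exp (a + b) * g t = Complex.exp (c + d) * g t := by
    intro a b c d
    rw [Complex.exp_add, Complex.exp_add]
    constructor
    · intro h; linear_combination h
    · intro h; linear_combination h
  rw [e]
  congr 2
  obtain ⟨x, y⟩ := w
  have hcw : conj (⟨x, y⟩ : ℂ) = (x : ℂ) - (y : ℂ) * Complex.I := by
    apply Complex.ext <;> simp
  rw [hcw, Complex.mk_eq_add_mul_I]
  simp only [Complex.add_re, Complex.add_im, Complex.ofReal_re, Complex.ofReal_im, Complex.mul_re,
    Complex.mul_im, Complex.I_re, Complex.I_im, mul_zero, mul_one, zero_add, add_zero, sub_zero]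
  push_cast
  ring_nf

/-- the inner product -/
noncomputable def ip (a b : ℝ → ℂ) : ℂ := ∫ t : ℝ, a t * conj (b t)

theorem norm_ip_le {a b : ℝ → ℂ} (ha : MemLp a 2) (hb : MemLp b 2) :
    ‖ip a b‖ ≤ ‖ha.toLp a‖ * ‖hb.toLp b‖ := by
  have h1 : ip a b = inner ℂ (hb.toLp b) (ha.toLp a) := by
    unfold ip
    rw [L2.inner_def]
    apply integral_congr_ae
    filter_upwards [ha.coeFn_toLp, hb.coeFn_toLp] with x h1 h2
    rw [h1, h2]
    simp
  rw [h1, mul_comm]
  exact norm_inner_le_norm _ _

/-- the ambiguity function -/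
noncomputable def FF (g : ℝ → ℂ) (w : ℂ) : ℂ := ip g (rho w g)

theorem FF_neg (g : ℝ → ℂ) (w : ℂ) : FF g (-w) = conj (FF g w) := by
  unfold FF ip rho
  rw [← integral_conj]
  rw [← integral_sub_right_eq_self (fun t : ℝ => g t * conj (mf (-w) t * g (t - (-w).re))) w.re]
  refine integral_congr_ae (Eventually.of_forall fun t => ?_)
  simp only [map_mul, Complex.conj_conj, Complex.neg_re, sub_neg_eq_add, sub_add_cancel]
  have h1 : conj (mf (-w) (t - w.re)) = mf w t := by
    unfold mf
    rw [← Complex.exp_conj]
    congr 1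
    rw [map_mul, Complex.conj_ofReal, Complex.conj_I]
    simp only [Complex.neg_re, Complex.neg_im]
    push_cast
    ring
  rw [h1]
  ring

theorem FF_zero (g : ℝ → ℂ) : FF g 0 = ((∫ t : ℝ, ‖g t‖ ^ 2 : ℝ) : ℂ) := by
  unfold FF ip rho
  rw [← integral_complex_ofReal]
  refine integral_congr_ae (Eventually.of_forall fun t => ?_)
  have : mf 0 t = 1 := by unfold mf; simp
  simp only [this, Complex.zero_re, sub_zero, one_mul]
  rw [Complex.mul_conj, Complex.normSq_eq_norm_sq]

include hg in
theorem cont_shift : Continuous (fun x : ℝ => (shift_L2 hg x).toLp (fun t => g (t - x))) := by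
  have h1 : ∀ x : ℝ, (shift_L2 hg x).toLp (fun t => g (t - x))
      = Lp.compMeasurePreserving (⟨fun t : ℝ => t - x, by fun_prop⟩ : C(ℝ, ℝ)) (mp_shift x)
        (hg.toLp g) := by
    intro x
    exact (Lp.toLp_compMeasurePreserving hg (mp_shift x)).symm
  simp_rw [h1]
  refine Continuous.compMeasurePreservingLp continuous_const ?_ _ (by norm_num)
  refine ContinuousMap.continuous_of_continuous_uncurry _ ?_
  change Continuous (fun q : ℝ × ℝ => q.2 - q.1)
  fun_prop

include hg in
theorem cont_FF : Continuous (FF g) := by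
  rw [continuous_iff_continuousAt]
  intro w
  -- fixed translation
  let B : ℝ → ℂ → ℂ := fun x w' => ip g (fun t => mf w' t * g (t - x))
  have hB2 : ∀ (x : ℝ) (w' : ℂ), MemLp (fun t => mf w' t * g (t - x)) 2 := by
    intro x w'
    refine (shift_L2 hg x).mono ((cont_mf' w').aestronglyMeasurable.mul
      (shift_L2 hg x).aestronglyMeasurable) (Eventually.of_forall fun t => ?_)
    rw [norm_mul, norm_mf, one_mul]
  have h1 : ContinuousAt (fun w' => B w.re w') w := by
    refine continuousAt_of_dominated (bound := fun t => ‖g t‖ * ‖g (t - w.re)‖) ?_ ?_ ?_ ?_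
    · exact Eventually.of_forall fun w' => (hg.integrable_mul (hB2 w.re w').star).aestronglyMeasurable
    · refine Eventually.of_forall fun w' => Eventually.of_forall fun t => ?_
      rw [norm_mul, RCLike.norm_conj, norm_mul, norm_mf, one_mul]
    · exact (hg.norm.integrable_mul (shift_L2 hg w.re).norm)
    · refine Eventually.of_forall fun t => ?_
      have h2 : Continuous (fun w' : ℂ => mf w' t) :=
        cont_mf.comp (by fun_prop : Continuous fun w' : ℂ => (w', t))
      exact (continuous_const.mul (Complex.continuous_conj.comp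
        (h2.mul continuous_const))).continuousAt
  have h2 : Tendsto (fun w' : ℂ => FF g w' - B w.re w') (𝓝 w) (𝓝 0) := by
    have h3 : ∀ w' : ℂ, ‖FF g w' - B w.re w'‖ ≤ ‖hg.toLp g‖ *
        ‖(shift_L2 hg w'.re).toLp (fun t => g (t - w'.re))
          - (shift_L2 hg w.re).toLp (fun t => g (t - w.re))‖ := by
      intro w'
      have h4 : FF g w' - B w.re w' = ip g (fun t => mf w' t * (g (t - w'.re) - g (t - w.re))) := by
        unfold FF ip rho
        simp only [B, ip]
        have i1 : Integrable (fun t => g t * conj (mf w' t * g (t - w'.re))) :=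
          hg.integrable_mul (hB2 w'.re w').star
        have i2 : Integrable (fun t => g t * conj (mf w' t * g (t - w.re))) :=
          hg.integrable_mul (hB2 w.re w').star
        rw [← integral_sub i1 i2]
        refine integral_congr_ae (Eventually.of_forall fun t => ?_)
        simp only [map_mul, map_sub]
        ring
      have hD : MemLp (fun t => g (t - w'.re) - g (t - w.re)) 2 :=
        (shift_L2 hg w'.re).sub (shift_L2 hg w.re)
      have hM : MemLp (fun t => mf w' t * (g (t - w'.re) - g (t - w.re))) 2 := by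
        refine hD.mono ((cont_mf' w').aestronglyMeasurable.mul
          hD.aestronglyMeasurable) (Eventually.of_forall fun t => ?_)
        rw [norm_mul, norm_mf, one_mul]
      rw [h4]
      refine (norm_ip_le hg hM).trans (mul_le_mul_of_nonneg_left ?_ (norm_nonneg _))
      rw [← MemLp.toLp_sub, Lp.norm_toLp, Lp.norm_toLp]
      refine ENNReal.toReal_mono hD.2.ne ?_
      refine eLpNorm_mono fun t => ?_
      rw [norm_mul, norm_mf, one_mul]
      rfl
    have h5 : Tendsto (fun w' : ℂ => ‖hg.toLp g‖ *
        ‖(shift_L2 hg w'.re).toLp (fun t => g (t - w'.re))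
          - (shift_L2 hg w.re).toLp (fun t => g (t - w.re))‖) (𝓝 w) (𝓝 0) := by
      have h6 : Continuous (fun w' : ℂ => ‖hg.toLp g‖ *
        ‖(shift_L2 hg w'.re).toLp (fun t => g (t - w'.re))
          - (shift_L2 hg w.re).toLp (fun t => g (t - w.re))‖) :=
        continuous_const.mul ((((cont_shift hg).comp Complex.continuous_re).sub
          continuous_const).norm)
      have h7 := h6.tendsto w
      simpa using h7
    exact squeeze_zero_norm h3 h5
  have h3 := h2.add h1.tendsto
  have e : (fun w' : ℂ => FF g w' - B w.re w' + B w.re w') = FF g := by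
    funext w'; ring
  rw [e, zero_add] at h3
  exact h3

end Pool.Agent.Q83.Her
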